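import Pool.Agent.H60.CM.Basic

/-!
# The caps (`UCK`, board `cms_modules`, `MP_d9d403_gt`)
-/

set_option autoImplicit false

open Set Function MeasureTheory Filter Topology
open scoped Manifold ContDiff Matrix
open Pool.Agent.H60.CM

namespace Pool.Agent.H76.CM

/-- the denominator of the projection -/
def dn (c ρ σ : ℝ) (y : V3) : ℝ := ρ + σ * (y 2 - c)

/-- the stereographic projection -/
noncomputable def st (c ρ σ : ℝ) (y : V3) : ℂ := ⟨y 0 / dn c ρ σ y, y 1 / dn c ρ σ y⟩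

/-- its inverse -/
noncomputable def ts (c ρ σ : ℝ) (z : ℂ) : V3 :=
  ![2 * ρ * z.re / (1 + Complex.normSq z), 2 * ρ * z.im / (1 + Complex.normSq z),
    c + σ * ρ * (1 - Complex.normSq z) / (1 + Complex.normSq z)]

theorem one_add_pos (z : ℂ) : 0 < 1 + Complex.normSq z := by
  have := Complex.normSq_nonneg z
  linarith

theorem dn_cont (c ρ σ : ℝ) : Continuous (dn c ρ σ) := by
  unfold dn
  fun_prop

theorem ts_cont (c ρ σ : ℝ) : Continuous (ts c ρ σ) := by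
  have h1 : Continuous fun z : ℂ => 1 + Complex.normSq z := by
    exact continuous_const.add Complex.continuous_normSq
  have h0 : ∀ z : ℂ, 1 + Complex.normSq z ≠ 0 := fun z => (one_add_pos z).ne'
  refine continuous_pi fun i => ?_
  fin_cases i
  · exact (continuous_const.mul Complex.continuous_re).div h1 h0
  · exact (continuous_const.mul Complex.continuous_im).div h1 h0
  · exact continuous_const.add
      ((continuous_const.mul (continuous_const.sub Complex.continuous_normSq)).div h1 h0)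

theorem ts_mem (c ρ σ : ℝ) (hσ : σ * σ = 1) (z : ℂ) : ts c ρ σ z ∈ Ysp c ρ := by
  have h0 := (one_add_pos z).ne'
  show (ts c ρ σ z 0) ^ 2 + (ts c ρ σ z 1) ^ 2 + (ts c ρ σ z 2 - c) ^ 2 = ρ ^ 2
  have hq : Complex.normSq z = z.re * z.re + z.im * z.im := Complex.normSq_apply z
  simp only [ts, Matrix.cons_val]
  have e1 : c + σ * ρ * (1 - Complex.normSq z) / (1 + Complex.normSq z) - c =
      σ * (ρ * (1 - Complex.normSq z) / (1 + Complex.normSq z)) := by ring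
  rw [e1]
  have e2 : (σ * (ρ * (1 - Complex.normSq z) / (1 + Complex.normSq z))) ^ 2 =
      (ρ * (1 - Complex.normSq z) / (1 + Complex.normSq z)) ^ 2 := by
    rw [mul_pow, pow_two σ, hσ, one_mul]
  rw [e2]
  field_simp
  rw [hq]
  ring

theorem dn_ts (c ρ σ : ℝ) (hσ : σ * σ = 1) (z : ℂ) :
    dn c ρ σ (ts c ρ σ z) = 2 * ρ / (1 + Complex.normSq z) := by
  have h0 := (one_add_pos z).ne'
  simp only [dn, ts, Matrix.cons_val]
  have e1 : σ * (c + σ * ρ * (1 - Complex.normSq z) / (1 + Complex.normSq z) - c) =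
      (σ * σ) * (ρ * (1 - Complex.normSq z) / (1 + Complex.normSq z)) := by ring
  rw [e1, hσ]
  field_simp
  ring

theorem st_ts (c ρ σ : ℝ) (hρ : 0 < ρ) (hσ : σ * σ = 1) (z : ℂ) :
    st c ρ σ (ts c ρ σ z) = z := by
  have h0 := (one_add_pos z).ne'
  have hd := dn_ts c ρ σ hσ z
  apply Complex.ext
  · simp only [st]
    rw [hd]
    simp only [ts, Matrix.cons_val_zero]
    field_simp
  · simp only [st]
    rw [hd]
    simp only [ts, Matrix.cons_val]
    field_simp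

theorem ts_st (c ρ σ : ℝ) (hρ : 0 < ρ) (hσ : σ * σ = 1) (y : V3) (hy : y ∈ Ysp c ρ)
    (hd : 0 < dn c ρ σ y) : ts c ρ σ (st c ρ σ y) = y := by
  have hy' : (y 0) ^ 2 + (y 1) ^ 2 + (y 2 - c) ^ 2 = ρ ^ 2 := hy
  set d := dn c ρ σ y with hdd
  have hd0 : d ≠ 0 := hd.ne'
  have ed : σ * (y 2 - c) = d - ρ := by
    rw [hdd]
    simp only [dn]
    ring
  have e2 : (y 2 - c) ^ 2 = (d - ρ) ^ 2 := by
    rw [← ed, mul_pow, pow_two σ, hσ, one_mul]
  have ey : y 2 = c + σ * (d - ρ) := by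
    rw [← ed, ← mul_assoc, hσ]
    ring
  have hq : 1 + Complex.normSq (st c ρ σ y) = 2 * ρ / d := by
    rw [Complex.normSq_apply]
    simp only [st]
    rw [← hdd]
    field_simp
    nlinarith
  have hq2 : Complex.normSq (st c ρ σ y) = 2 * ρ / d - 1 := by linarith
  funext i
  fin_cases i
  · show ts c ρ σ (st c ρ σ y) 0 = y 0
    simp only [ts, Matrix.cons_val_zero]
    rw [hq]
    simp only [st]
    rw [← hdd]
    field_simp
  · show ts c ρ σ (st c ρ σ y) 1 = y 1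
    simp only [ts, Matrix.cons_val]
    rw [hq]
    simp only [st]
    rw [← hdd]
    field_simp
  · show ts c ρ σ (st c ρ σ y) 2 = y 2
    simp only [ts, Matrix.cons_val]
    rw [hq, hq2, ey]
    field_simp
    ring

theorem st_contAt (c ρ σ : ℝ) (y : V3) (hd : 0 < dn c ρ σ y) : ContinuousAt (st c ρ σ) y := by
  have h1 : ContinuousAt (fun y : V3 => y 0 / dn c ρ σ y) y :=
    (continuous_apply 0).continuousAt.div (dn_cont c ρ σ).continuousAt hd.ne'
  have h2 : ContinuousAt (fun y : V3 => y 1 / dn c ρ σ y) y :=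
    (continuous_apply 1).continuousAt.div (dn_cont c ρ σ).continuousAt hd.ne'
  have h3 : ContinuousAt (fun y : V3 => (((y 0 / dn c ρ σ y : ℝ) : ℂ) +
      ((y 1 / dn c ρ σ y : ℝ) : ℂ) * Complex.I)) y := by
    exact (Complex.continuous_ofReal.continuousAt.comp h1).add
      ((Complex.continuous_ofReal.continuousAt.comp h2).mul continuousAt_const)
  have h4 : st c ρ σ = fun y : V3 => (((y 0 / dn c ρ σ y : ℝ) : ℂ) +
      ((y 1 / dn c ρ σ y : ℝ) : ℂ) * Complex.I) := by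
    funext y
    apply Complex.ext
    · simp [st]
    · simp [st]
  rw [h4]
  exact h3

theorem kca_dn (r c ρ σ : ℝ) (hr : 0 < r) (hρ : 0 < ρ) (he : ρ ^ 2 = r ^ 2 + c ^ 2)
    (hσ : σ = 1 ∨ σ = -1) : 0 < ρ - σ * c := by
  have h2 : c ^ 2 < ρ ^ 2 := by nlinarith
  have h3 : |c| < ρ := by
    have := abs_lt_of_sq_lt_sq h2 hρ.le
    exact this
  rcases abs_lt.mp h3 with ⟨h4, h5⟩
  rcases hσ with h | h
  · subst h
    linarith
  · subst h
    linarith

/-- the radius of the disc -/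
noncomputable def rr (r c ρ σ : ℝ) : ℝ := r / (ρ - σ * c)

theorem sgn_ts (r c ρ σ : ℝ) (hr : 0 < r) (hρ : 0 < ρ) (he : ρ ^ 2 = r ^ 2 + c ^ 2)
    (hσ : σ = 1 ∨ σ = -1) (z : ℂ) :
    σ * ts c ρ σ z 2 = (ρ - σ * c) * (rr r c ρ σ ^ 2 - ‖z‖ ^ 2) / (1 + Complex.normSq z) := by
  have hp := kca_dn r c ρ σ hr hρ he hσ
  have h0 := (one_add_pos z).ne'
  have hσ2 : σ * σ = 1 := by rcases hσ with h | h <;> subst h <;> norm_num
  rw [Complex.sq_norm]
  simp only [ts, Matrix.cons_val, rr]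
  have e1 : σ * (c + σ * ρ * (1 - Complex.normSq z) / (1 + Complex.normSq z)) =
      σ * c + (σ * σ) * (ρ * (1 - Complex.normSq z) / (1 + Complex.normSq z)) := by ring
  rw [e1, hσ2]
  have hp' := hp.ne'
  have e2 : r ^ 2 = (ρ + σ * c) * (ρ - σ * c) := by
    have : σ ^ 2 = 1 := by rw [pow_two, hσ2]
    have e3 : (ρ + σ * c) * (ρ - σ * c) = ρ ^ 2 - σ ^ 2 * c ^ 2 := by ring
    rw [e3, this]
    linarith
  have e4 : (r / (ρ - σ * c)) ^ 2 = (ρ + σ * c) / (ρ - σ * c) := by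
    rw [div_pow, e2]
    field_simp
  rw [e4]
  field_simp
  ring

theorem kca_iff (r c ρ σ : ℝ) (hr : 0 < r) (hρ : 0 < ρ) (he : ρ ^ 2 = r ^ 2 + c ^ 2)
    (hσ : σ = 1 ∨ σ = -1) (z : ℂ) : ts c ρ σ z ∈ Kca c ρ σ ↔ ‖z‖ ≤ rr r c ρ σ := by
  have hp := kca_dn r c ρ σ hr hρ he hσ
  have hσ2 : σ * σ = 1 := by rcases hσ with h | h <;> subst h <;> norm_num
  have h1 := one_add_pos z
  have hR : 0 < rr r c ρ σ := div_pos hr hp
  have h2 : ts c ρ σ z ∈ Kca c ρ σ ↔ 0 ≤ σ * ts c ρ σ z 2 := by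
    constructor
    · rintro ⟨_, h⟩
      exact h
    · intro h
      exact ⟨ts_mem c ρ σ hσ2 z, h⟩
  rw [h2, sgn_ts r c ρ σ hr hρ he hσ z]
  constructor
  · intro h
    have h3 : 0 ≤ (ρ - σ * c) * (rr r c ρ σ ^ 2 - ‖z‖ ^ 2) := by
      by_contra hc
      push Not at hc
      have := div_neg_of_neg_of_pos hc h1
      linarith
    have h4 : 0 ≤ rr r c ρ σ ^ 2 - ‖z‖ ^ 2 := by
      by_contra hc
      push Not at hc
      have := mul_neg_of_pos_of_neg hp hc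
      linarith
    exact le_of_sq_le_sq (by linarith) hR.le |> fun h => h
  · intro h
    have h4 : 0 ≤ rr r c ρ σ ^ 2 - ‖z‖ ^ 2 := by
      have := pow_le_pow_left₀ (norm_nonneg z) h 2
      linarith
    exact div_nonneg (mul_nonneg hp.le h4) h1.le

theorem kca_circ (r c ρ : ℝ) (he : ρ ^ 2 = r ^ 2 + c ^ 2) (y : V3) (hy : y ∈ Ysp c ρ) :
    y ∈ circ r ↔ y 2 = 0 := by
  have hy' : (y 0) ^ 2 + (y 1) ^ 2 + (y 2 - c) ^ 2 = ρ ^ 2 := hy
  constructor
  · intro h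
    exact h.1
  · intro h
    refine ⟨h, ?_⟩
    rw [Matrix.vec3_dotProduct, h]
    rw [h] at hy'
    nlinarith

theorem circ_sub (r c ρ σ : ℝ) (he : ρ ^ 2 = r ^ 2 + c ^ 2) : circ r ⊆ Kca c ρ σ := by
  rintro y ⟨h1, h2⟩
  rw [Matrix.vec3_dotProduct, h1] at h2
  refine ⟨?_, ?_⟩
  · show (y 0) ^ 2 + (y 1) ^ 2 + (y 2 - c) ^ 2 = ρ ^ 2
    rw [h1]
    nlinarith
  · rw [h1]
    simp

theorem kca_opn (r c ρ σ : ℝ) (he : ρ ^ 2 = r ^ 2 + c ^ 2)
    (hσ : σ = 1 ∨ σ = -1) : Kca c ρ σ \ circ r = {y | 0 < σ * y 2} ∩ Ysp c ρ := by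
  have hσ2 : σ * σ = 1 := by rcases hσ with h | h <;> subst h <;> norm_num
  ext y
  constructor
  · rintro ⟨⟨h1, h2⟩, h3⟩
    refine ⟨?_, h1⟩
    rcases h2.lt_or_eq with h | h
    · exact h
    · exfalso
      apply h3
      rw [kca_circ r c ρ he y h1]
      have : σ * (σ * y 2) = 0 := by rw [← h, mul_zero]
      rw [← mul_assoc, hσ2, one_mul] at this
      exact this
  · rintro ⟨h1, h2⟩
    refine ⟨⟨h2, le_of_lt h1⟩, ?_⟩
    rw [kca_circ r c ρ he y h2]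
    intro h3
    have h1' : 0 < σ * y 2 := h1
    rw [h3, mul_zero] at h1'
    exact lt_irrefl _ h1'

theorem kcc_iff (r c ρ σ : ℝ) (hr : 0 < r) (hρ : 0 < ρ) (he : ρ ^ 2 = r ^ 2 + c ^ 2)
    (hσ : σ = 1 ∨ σ = -1) (z : ℂ) :
    ts c ρ σ z ∈ Kca c ρ σ \ circ r ↔ ‖z‖ < rr r c ρ σ := by
  have hp := kca_dn r c ρ σ hr hρ he hσ
  have h1 := one_add_pos z
  have hσ2 : σ * σ = 1 := by rcases hσ with h | h <;> subst h <;> norm_num
  have hR : 0 < rr r c ρ σ := div_pos hr hp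
  rw [kca_opn r c ρ σ he hσ]
  have h2 : ts c ρ σ z ∈ {y : V3 | 0 < σ * y 2} ∩ Ysp c ρ ↔ 0 < σ * ts c ρ σ z 2 := by
    constructor
    · rintro ⟨h, _⟩
      exact h
    · intro h
      exact ⟨h, ts_mem c ρ σ hσ2 z⟩
  rw [h2, sgn_ts r c ρ σ hr hρ he hσ z]
  constructor
  · intro h
    by_contra hc
    push Not at hc
    have h4 := pow_le_pow_left₀ hR.le hc 2
    have h5 : (ρ - σ * c) * (rr r c ρ σ ^ 2 - ‖z‖ ^ 2) ≤ 0 :=
      mul_nonpos_of_nonneg_of_nonpos hp.le (by linarith)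
    have h6 := div_nonpos_of_nonpos_of_nonneg h5 h1.le
    linarith
  · intro h
    have h4 : 0 < rr r c ρ σ ^ 2 - ‖z‖ ^ 2 := by
      have := pow_lt_pow_left₀ h (norm_nonneg z) (by norm_num : (2 : ℕ) ≠ 0)
      linarith
    exact div_pos (mul_pos hp h4) h1

theorem kca_dpos (r c ρ σ : ℝ) (hr : 0 < r) (hρ : 0 < ρ) (he : ρ ^ 2 = r ^ 2 + c ^ 2)
    (hσ : σ = 1 ∨ σ = -1) (y : V3) (hy : y ∈ Kca c ρ σ) : 0 < dn c ρ σ y := by
  have hp := kca_dn r c ρ σ hr hρ he hσ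
  have h2 : 0 ≤ σ * y 2 := hy.2
  simp only [dn]
  nlinarith

theorem kca_image (r c ρ σ : ℝ) (hr : 0 < r) (hρ : 0 < ρ) (he : ρ ^ 2 = r ^ 2 + c ^ 2)
    (hσ : σ = 1 ∨ σ = -1) :
    Kca c ρ σ = ts c ρ σ '' Metric.closedBall (0 : ℂ) (rr r c ρ σ) := by
  have hσ2 : σ * σ = 1 := by rcases hσ with h | h <;> subst h <;> norm_num
  ext y
  constructor
  · intro h
    have h1 := ts_st c ρ σ hρ hσ2 y h.1 (kca_dpos r c ρ σ hr hρ he hσ y h)
    refine ⟨st c ρ σ y, ?_, h1⟩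
    rw [mem_closedBall_zero_iff, ← kca_iff r c ρ σ hr hρ he hσ, h1]
    exact h
  · rintro ⟨z, hz, rfl⟩
    rw [mem_closedBall_zero_iff, ← kca_iff r c ρ σ hr hρ he hσ] at hz
    exact hz

/-- the disc and the cap are homeomorphic -/
noncomputable def kho (r c ρ σ : ℝ) (hr : 0 < r) (hρ : 0 < ρ) (he : ρ ^ 2 = r ^ 2 + c ^ 2)
    (hσ : σ = 1 ∨ σ = -1) : Metric.closedBall (0 : ℂ) (rr r c ρ σ) ≃ₜ Kca c ρ σ where
  toFun z := ⟨ts c ρ σ z, by
    rw [kca_image r c ρ σ hr hρ he hσ]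
    exact ⟨z, z.2, rfl⟩⟩
  invFun y := ⟨st c ρ σ y, by
    have hσ2 : σ * σ = 1 := by rcases hσ with h | h <;> subst h <;> norm_num
    have h1 := ts_st c ρ σ hρ hσ2 y y.2.1 (kca_dpos r c ρ σ hr hρ he hσ y y.2)
    rw [mem_closedBall_zero_iff, ← kca_iff r c ρ σ hr hρ he hσ, h1]
    exact y.2⟩
  left_inv z := by
    have hσ2 : σ * σ = 1 := by rcases hσ with h | h <;> subst h <;> norm_num
    exact Subtype.ext (st_ts c ρ σ hρ hσ2 z)
  right_inv y := by
    have hσ2 : σ * σ = 1 := by rcases hσ with h | h <;> subst h <;> norm_num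
    exact Subtype.ext (ts_st c ρ σ hρ hσ2 y y.2.1 (kca_dpos r c ρ σ hr hρ he hσ y y.2))
  continuous_toFun := by
    exact Continuous.subtype_mk ((ts_cont c ρ σ).comp continuous_subtype_val) _
  continuous_invFun := by
    refine Continuous.subtype_mk ?_ _
    rw [continuous_iff_continuousAt]
    intro y
    exact (st_contAt c ρ σ y (kca_dpos r c ρ σ hr hρ he hσ y y.2)).comp
      continuous_subtype_val.continuousAt

theorem kca_nb (r c ρ σ : ℝ) (hr : 0 < r) (hρ : 0 < ρ) (he : ρ ^ 2 = r ^ 2 + c ^ 2)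
    (hσ : σ = 1 ∨ σ = -1) (y : V3) (hy : y ∈ circ r) (W : Set V3) (hW : IsOpen W) (hyW : y ∈ W) :
    ∃ Q : Set V3, IsOpen Q ∧ y ∈ Q ∧ Q ⊆ W ∧ IsPreconnected ((Kca c ρ σ \ circ r) ∩ Q) := by
  have hσ2 : σ * σ = 1 := by rcases hσ with h | h <;> subst h <;> norm_num
  have hyK : y ∈ Kca c ρ σ := circ_sub r c ρ σ he hy
  have hd := kca_dpos r c ρ σ hr hρ he hσ y hyK
  have h1 := ts_st c ρ σ hρ hσ2 y hyK.1 hd
  have h2 : ∀ᶠ z in 𝓝 (st c ρ σ y), ts c ρ σ z ∈ W := by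
    apply (ts_cont c ρ σ).continuousAt
    rw [h1]
    exact hW.mem_nhds hyW
  obtain ⟨δ, hδ, hδ2⟩ := Metric.eventually_nhds_iff_ball.mp h2
  have hO : IsOpen {y' : V3 | 0 < dn c ρ σ y'} :=
    isOpen_lt continuous_const (dn_cont c ρ σ)
  refine ⟨W ∩ ({y' : V3 | 0 < dn c ρ σ y'} ∩ st c ρ σ ⁻¹' (Metric.ball (st c ρ σ y) δ)),
    ?_, ⟨hyW, hd, Metric.mem_ball_self hδ⟩, inter_subset_left, ?_⟩
  · refine hW.inter (ContinuousOn.isOpen_inter_preimage ?_ hO Metric.isOpen_ball)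
    intro y' hy'
    exact (st_contAt c ρ σ y' hy').continuousWithinAt
  · have e : (Kca c ρ σ \ circ r) ∩
        (W ∩ ({y' : V3 | 0 < dn c ρ σ y'} ∩ st c ρ σ ⁻¹' (Metric.ball (st c ρ σ y) δ))) =
        ts c ρ σ '' (Metric.ball (st c ρ σ y) δ ∩ Metric.ball (0 : ℂ) (rr r c ρ σ)) := by
      ext w
      constructor
      · rintro ⟨h3, h4, h5, h6⟩
        have h7 := ts_st c ρ σ hρ hσ2 w h3.1.1 h5
        refine ⟨st c ρ σ w, ⟨h6, ?_⟩, h7⟩
        rw [mem_ball_zero_iff, ← kcc_iff r c ρ σ hr hρ he hσ, h7]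
        exact h3
      · rintro ⟨z, ⟨h3, h4⟩, rfl⟩
        have h7 := st_ts c ρ σ hρ hσ2 z
        rw [mem_ball_zero_iff, ← kcc_iff r c ρ σ hr hρ he hσ] at h4
        refine ⟨h4, hδ2 z h3, ?_, ?_⟩
        · exact kca_dpos r c ρ σ hr hρ he hσ _ h4.1
        · rw [mem_preimage, h7]
          exact h3
    rw [e]
    exact (((convex_ball _ _).inter (convex_ball _ _)).isPreconnected).image _
      (ts_cont c ρ σ).continuousOn

theorem pf_UCK : T_UCK := by
  intro r c ρ σ hr hρ he hσ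
  have hp := kca_dn r c ρ σ hr hρ he hσ
  have hR : 0 < rr r c ρ σ := div_pos hr hp
  have hcon : ContractibleSpace (Metric.closedBall (0 : ℂ) (rr r c ρ σ)) :=
    (convex_closedBall _ _).contractibleSpace ⟨0, by simpa using hR.le⟩
  have hlp : LocallyPathConnectedSpace (Metric.closedBall (0 : ℂ) (rr r c ρ σ)) :=
    (convex_closedBall _ _).locallyPathConnectedSpace
  refine
    { cpt := ?_
      sub := circ_sub r c ρ σ he
      subY := fun y hy => hy.1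
      opn := ⟨{y | 0 < σ * y 2}, ?_, kca_opn r c ρ σ he hσ⟩
      sc := ?_
      lpc := ?_
      nb := kca_nb r c ρ σ hr hρ he hσ }
  · rw [kca_image r c ρ σ hr hρ he hσ]
    exact (isCompact_closedBall _ _).image (ts_cont c ρ σ)
  · exact isOpen_lt continuous_const (continuous_const.mul (continuous_apply 2))
  · have : ContractibleSpace (Kca c ρ σ) :=
      (kho r c ρ σ hr hρ he hσ).symm.contractibleSpace
    exact SimplyConnectedSpace.ofContractible _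
  · exact (kho r c ρ σ hr hρ he hσ).symm.isOpenEmbedding.locallyPathConnectedSpace

end Pool.Agent.H76.CM
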